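import Pool.Agent.R210.X7

/-!
A one-sided scale-invariant regularity criterion for axisymmetric solutions of the Navier-Stokes
equations with swirl, in terms of the radial velocity and of the production of the azimuthal
vorticity by the swirl.

`V = Fin 3 → ℝ`. The axis of symmetry is the third coordinate axis. At the point `pt r z = (r, 0, z)`
with the cylindrical coordinates `(r, 0, z)` the Cartesian components `0, 1, 2` of an axisymmetric
field are its components in the directions `e_r, e_θ, e_z`; they determine the field.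
-/

open MeasureTheory Set
open H459R3.NS Pool.Agent.R210.Ax

namespace Pool.Agent.Results.MP_09540e_an.OneSidedOutflow

/-- The curl of a vector field. -/
noncomputable def curl (v : V → V) (x : V) : V :=
  ![pd 1 (fun y => v y 2) x - pd 2 (fun y => v y 1) x,
    pd 2 (fun y => v y 0) x - pd 0 (fun y => v y 2) x,
    pd 0 (fun y => v y 1) x - pd 1 (fun y => v y 0) x]

/-- The radial component of the axisymmetric field `v` at the points with the cylindrical
coordinates `r` and `z`. -/
noncomputable def rad (v : V → V) (r z : ℝ) : ℝ := v (pt r z) 0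

/-- The azimuthal component of the axisymmetric field `v` at the points with the cylindrical
coordinates `r` and `z`. -/
noncomputable def azi (v : V → V) (r z : ℝ) : ℝ := v (pt r z) 1

/-- Let `(u, p)` be a smooth axisymmetric solution of the Navier-Stokes equations on `[0, T) × ℝ³`,
with finite energy and decaying at infinity (see `AxSol`), `ω = curl u` and `Γ = r u_θ`. Let
`0 ≤ a ≤ 1`, `K ≥ 0` and let `M ≥ 0` be a continuous function on `[0, T)` with a finite integral.
Suppose that at all times `t` in `(0, T)` and all points off the axis at which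
`|ω_θ| > K min (1, r ^ a)`

`(1 - a) r u_r - 2 Γ ω_r / ω_θ ≤ ν (1 - a ^ 2) + M(t) r ^ 2`.

Then `u` is bounded on `[0, T) × ℝ³`. -/
theorem result {ν T E a K : ℝ} {u : ℝ → V → V} {p : ℝ → V → ℝ} {M : ℝ → ℝ} (hν : 0 < ν)
    (h : AxSol ν T E u p) (ha0 : 0 ≤ a) (ha1 : a ≤ 1) (hK : 0 ≤ K)
    (hM0 : ∀ t ∈ Ioo 0 T, 0 ≤ M t) (hMc : ContinuousOn M (Ico 0 T)) (hMi : IntegrableOn M (Ioo 0 T))
    (hcond : ∀ t ∈ Ioo 0 T, ∀ r z : ℝ, 0 < r → K * min 1 (r ^ a) < |azi (curl (u t)) r z| →
      (1 - a) * (r * rad (u t) r z)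
          - 2 * (r * azi (u t) r z) * (rad (curl (u t)) r z / azi (curl (u t)) r z)
        ≤ ν * (1 - a ^ 2) + M t * r ^ 2) :
    ∃ B : ℝ, ∀ t ∈ Ico 0 T, ∀ x, ‖u t x‖ ≤ B := by
  refine h.criterion hν (K := K) ha0 ha1 hM0 hMc hMi fun t ht r z hr hlt => ?_
  have h1 := hcond t ht r z hr hlt
  have hm : 0 ≤ K * min 1 (r ^ a) :=
    mul_nonneg hK (le_min zero_le_one (Real.rpow_nonneg hr.le a))
  have hne : Pool.Agent.R210.cu (u t) (pt r z) 1 ≠ 0 := by
    intro h0
    rw [h0, abs_zero] at hlt
    linarith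
  have h2 : (1 - a) * (r * u t (pt r z) 0) - 2 * (r * u t (pt r z) 1)
      * (Pool.Agent.R210.cu (u t) (pt r z) 0 / Pool.Agent.R210.cu (u t) (pt r z) 1)
      ≤ ν * (1 - a ^ 2) + M t * r ^ 2 := h1
  have h3 := mul_le_mul_of_nonneg_right h2 (sq_nonneg (Pool.Agent.R210.cu (u t) (pt r z) 1))
  refine le_trans (le_of_eq ?_) h3
  field_simp

end Pool.Agent.Results.MP_09540e_an.OneSidedOutflow
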