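import Pool.Agent.R245.AX2.P3

/-!
A one-sided scale-invariant regularity criterion for axisymmetric solutions of the Navier-Stokes
equations with swirl, in terms of the radial velocity, the swirl and the azimuthal vorticity, without
any condition on the other components of the vorticity.

`V = Fin 3 → ℝ`. The axis of symmetry is the third coordinate axis. At the point `pt r z = (r, 0, z)`
with the cylindrical coordinates `(r, 0, z)` the Cartesian components `0, 1, 2` of an axisymmetric
field are its components in the directions `e_r, e_θ, e_z`; they determine the field.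
-/

open MeasureTheory Set
open H459R3.NS Pool.Agent.R210.Ax

namespace Pool.Agent.Results.MP_09540e_an.SwirlSquareBarrier

/-- The azimuthal component of the curl of the vector field `v` at the points with the cylindrical
coordinates `r` and `z`. -/
noncomputable def vort (v : V → V) (r z : ℝ) : ℝ :=
  pd 2 (fun y => v y 0) (pt r z) - pd 0 (fun y => v y 2) (pt r z)

/-- The radial component of the axisymmetric field `v` at the points with the cylindrical
coordinates `r` and `z`. -/
noncomputable def rad (v : V → V) (r z : ℝ) : ℝ := v (pt r z) 0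

/-- The azimuthal component of the axisymmetric field `v` at the points with the cylindrical
coordinates `r` and `z`. -/
noncomputable def azi (v : V → V) (r z : ℝ) : ℝ := v (pt r z) 1

/-- Let `(u, p)` be a smooth axisymmetric solution of the Navier-Stokes equations on `[0, T) × ℝ³`,
with finite energy and decaying at infinity (see `AxSol`), `ω = curl u`. Let `0 ≤ a ≤ 1`, `A > 0`,
`K ≥ 0` and let `M ≥ 0` be a continuous function on `[0, T)` with a finite integral. Suppose that at
all times `t` in `(0, T)` and all points off the axis at which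
`|ω_θ| + A u_θ ^ 2 > K min (1, r ^ a)`

`r u_r ((1 - a) |ω_θ| - (2 + a) A u_θ ^ 2) ≤ ν (1 - a ^ 2) |ω_θ|
  + (ν A (2 - a ^ 2) - 1 / (2 ν A)) u_θ ^ 2 + M(t) r ^ 2 (|ω_θ| + A u_θ ^ 2)`.

Then `u` is bounded on `[0, T) × ℝ³`. -/
theorem result {ν T E a A K : ℝ} {u : ℝ → V → V} {p : ℝ → V → ℝ} {M : ℝ → ℝ} (hν : 0 < ν)
    (h : AxSol ν T E u p) (ha0 : 0 ≤ a) (ha1 : a ≤ 1) (hA : 0 < A) (_hK : 0 ≤ K)
    (hM0 : ∀ t ∈ Ioo 0 T, 0 ≤ M t) (hMc : ContinuousOn M (Ico 0 T)) (hMi : IntegrableOn M (Ioo 0 T))
    (hcond : ∀ t ∈ Ioo 0 T, ∀ r z : ℝ, 0 < r →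
      K * min 1 (r ^ a) < |vort (u t) r z| + A * azi (u t) r z ^ 2 →
      r * rad (u t) r z * ((1 - a) * |vort (u t) r z| - (2 + a) * A * azi (u t) r z ^ 2)
        ≤ ν * (1 - a ^ 2) * |vort (u t) r z|
          + (ν * A * (2 - a ^ 2) - 1 / (2 * ν * A)) * azi (u t) r z ^ 2
          + M t * r ^ 2 * (|vort (u t) r z| + A * azi (u t) r z ^ 2)) :
    ∃ B : ℝ, ∀ t ∈ Ico 0 T, ∀ x, ‖u t x‖ ≤ B :=
  Pool.Agent.R245.AX2.criterionC h hν hA ha0 ha1 hM0 hMc hMi
    fun t ht r z hr hlt => hcond t ht r z hr hlt

end Pool.Agent.Results.MP_09540e_an.SwirlSquareBarrier
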