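import Pool.Agent.R210.X10

/-!
A one-sided scale-invariant regularity criterion for axisymmetric solutions of the Navier-Stokes
equations with swirl, in terms of the radial velocity and of the ratio of the swirl to the
azimuthal vorticity.

`V = Fin 3 → ℝ`. The axis of symmetry is the third coordinate axis. At the point `pt r z = (r, 0, z)`
with the cylindrical coordinates `(r, 0, z)` the Cartesian components `0, 1, 2` of an axisymmetric
field are its components in the directions `e_r, e_θ, e_z`; they determine the field.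
-/

open MeasureTheory Set
open H459R3.NS Pool.Agent.R210.Ax

namespace Pool.Agent.Results.MP_09540e_an.SwirlVorticityRatio

/-- The curl of a vector field. -/
noncomputable def curl (v : V → V) (x : V) : V :=
  ![pd 1 (fun y => v y 2) x - pd 2 (fun y => v y 1) x,
    pd 2 (fun y => v y 0) x - pd 0 (fun y => v y 2) x,
    pd 0 (fun y => v y 1) x - pd 1 (fun y => v y 0) x]

/-- The radial component of the axisymmetric field `v` at the points with the cylindrical
coordinates `r` and `z`. -/
noncomputable def rad (v : V → V) (r z : ℝ) : ℝ := v (pt r z) 0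

/-- The azimuthal component of the axisymmetric field `v` at the points with the cylindrical
coordinates `r` and `z`. -/
noncomputable def azi (v : V → V) (r z : ℝ) : ℝ := v (pt r z) 1

/-- Let `(u, p)` be a smooth axisymmetric solution of the Navier-Stokes equations on `[0, T) × ℝ³`,
with finite energy and decaying at infinity (see `AxSol`), `ω = curl u` and `Γ = r u_θ`. Let
`G > 0` be a bound of `|Γ|` at the time `0`, `η > 0`, `K ≥ 0` and let `M ≥ 0` be a continuous
function on `[0, T)` with a finite integral. Suppose that at all times `t` in `(0, T)` and all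
points off the axis at which `|ω_θ| > K`

`r u_r + min (-2 Γ ω_r / ω_θ) ((1 + η) / (2 η ν) (G u_θ / (r ω_θ)) ^ 2) ≤ (1 - 2 η) ν + M(t) r ^ 2`.

Then `u` is bounded on `[0, T) × ℝ³`. -/
theorem result {ν T E η G K : ℝ} {u : ℝ → V → V} {p : ℝ → V → ℝ} {M : ℝ → ℝ} (hν : 0 < ν)
    (h : AxSol ν T E u p) (hη : 0 < η) (hG0 : 0 < G)
    (hG : ∀ r z : ℝ, 0 ≤ r → |r * azi (u 0) r z| ≤ G) (_hK : 0 ≤ K)
    (hM0 : ∀ t ∈ Ioo 0 T, 0 ≤ M t) (hMc : ContinuousOn M (Ico 0 T)) (hMi : IntegrableOn M (Ioo 0 T))
    (hcond : ∀ t ∈ Ioo 0 T, ∀ r z : ℝ, 0 < r → K < |azi (curl (u t)) r z| →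
      r * rad (u t) r z
          + min (-(2 * (r * azi (u t) r z) * (rad (curl (u t)) r z / azi (curl (u t)) r z)))
            ((1 + η) / (2 * η * ν) * (G * azi (u t) r z / (r * azi (curl (u t)) r z)) ^ 2)
        ≤ (1 - 2 * η) * ν + M t * r ^ 2) :
    ∃ B : ℝ, ∀ t ∈ Ico 0 T, ∀ x, ‖u t x‖ ≤ B :=
  h.criterionB hν hη hG0 (fun r hr z => hG r z hr) hM0 hMc hMi
    fun t ht r z hr hlt => hcond t ht r z hr hlt

end Pool.Agent.Results.MP_09540e_an.SwirlVorticityRatio
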